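import Pool.Agent.TH328.BM.Main

/-!
# Banach-Mazur rotation problem: isometries that are compact perturbations of a scalar

A separable transitive Banach space with an isometry `T`, not a multiple of the identity, such that
`T - c` is compact for a real number `c`, is a Hilbert space.

Proof outline (files `Pool/Agent/TH328/BM/*` and the files imported there).

1. `T = 1 + K`, `K` compact. If an isometry `S` is close to `1` in the strong operator topology then
   `S T S⁻¹ T⁻¹` is close to `1` in norm: it is `1 + N +` small, `N = K (S⁻¹ - 1) T⁻¹`, `N ^ 2` small,
   and its powers are bounded. By a Baire category argument such `S` do not all commute with `T`. So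
   there are isometries `R n → 1` in norm, `R n ≠ 1`, `R n - 1` compact.
2. On an ultrapower `F` (again transitive) `X = lim (R n - 1) / ‖R n - 1‖` is a nonzero skew-Hermitian
   operator with a kernel.
3. `F` has a nonzero skew-Hermitian operator of finite rank: either a conjugate `X'` of `X` does not
   commute with `T`, and then a spectral cut off of `X'` for `X ↦ T X T⁻¹` away from the frequency `0`
   is nonzero and of finite rank; or all conjugates commute with `T`, and then the linear spans of
   `{U X U⁻¹ w : U}` are finite-dimensional of constant dimension, which forces `X` to have finite rank.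
4. Algebra: let `g` be the Lie algebra of the skew-Hermitian operators of finite rank of `F`. Finite
   parts of `g` preserve inner products, so that the associative algebra generated by `g` has a
   positive involution; by transitivity it acts irreducibly and transitively on nonzero vectors; `g`
   contains elements which exchange two lines over the centralizer; `F = ℝ x + g x` for all `x ≠ 0`,
   and there is a `g`-invariant quadratic form, which must be a multiple of the squared norm.
-/

set_option autoImplicit false
set_option linter.unusedVariables false

namespace Pool.Agent.Results.MP_cc72b1_an.CompactPerturbation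

open Pool.TH328.BM

theorem result :
    ∀ (E : Type) [NormedAddCommGroup E] [NormedSpace ℝ E] [CompleteSpace E]
      [TopologicalSpace.SeparableSpace E],
      (∀ x y : E, ‖x‖ = 1 → ‖y‖ = 1 → ∃ T : E ≃ₗᵢ[ℝ] E, T x = y) →
      ∀ (T : E ≃ₗᵢ[ℝ] E) (c : ℝ), IsCompactOperator (fun x => T x - c • x) →
      (∃ x, T x ≠ c • x) →
      ∃ (H : Type) (instH : NormedAddCommGroup H) (instI : InnerProductSpace ℝ H)
        (instC : CompleteSpace H), Nonempty (E ≃ₗᵢ[ℝ] H) := by
  intro E _ _ _ _ htr T c hK hT
  have key : ∀ x y : E,
      ‖x + y‖ * ‖x + y‖ + ‖x - y‖ * ‖x - y‖ = 2 * (‖x‖ * ‖x‖ + ‖y‖ * ‖y‖) := by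
    by_cases hfin : FiniteDimensional ℝ E
    · exact par_of_finite E hfin htr
    -- the scalar is `1` or `-1`
    have hc : |c| = 1 := by
      by_contra hne
      have hpos : 0 < abs (1 - abs c) := abs_pos.2 (sub_ne_zero.2 (Ne.symm hne))
      obtain ⟨x, hx, hxK⟩ := exists_small_compact E hfin
        (Pool.H590R3.Ab.op T - c • (1 : E →L[ℝ] E)) hK _ hpos
      have h1 : (Pool.H590R3.Ab.op T - c • (1 : E →L[ℝ] E)) x = T x - c • x := rfl
      rw [h1] at hxK
      have h2 := abs_norm_sub_norm_le (T x) (c • x)
      rw [T.norm_map, norm_smul, hx, mul_one, Real.norm_eq_abs] at h2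
      linarith
    rcases eq_or_eq_neg_of_abs_eq hc with h1 | h1
    · subst h1
      simp only [one_smul] at hK hT
      exact main_inf E htr hfin T hT hK
    · subst h1
      refine main_inf E htr hfin (T.trans (LinearIsometryEquiv.neg ℝ)) ?_ ?_
      · obtain ⟨x, hx⟩ := hT
        refine ⟨x, fun h => hx ?_⟩
        have h2 : -(T x) = x := h
        rw [neg_one_smul, ← h2, neg_neg, h2]
      · have h3 : (fun x => (T.trans (LinearIsometryEquiv.neg ℝ)) x - x) =
            -(fun x => T x - (-1 : ℝ) • x) := by
          funext x
          show -(T x) - x = -(T x - (-1 : ℝ) • x)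
          rw [neg_one_smul]
          abel
        rw [h3]
        exact hK.neg
  exact ⟨E, inferInstance, InnerProductSpace.ofNorm ℝ key, inferInstance,
    ⟨LinearIsometryEquiv.refl ℝ E⟩⟩

end Pool.Agent.Results.MP_cc72b1_an.CompactPerturbation
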