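import Pool.Agent.H305R3.Rot.Amen
import Pool.Agent.H305R3.Rot.Conv
import Pool.Agent.TH578.Rot.Pairs

/-!
# Banach-Mazur rotation problem: compact spaces of pair orbits

Let `E` be a separable Banach space with transitive norm, such that up to every `ε` there are only
finitely many pairs of unit vectors modulo linear isometries (for example the isometry group is
Roelcke precompact, or `E` is separably categorical). Then `E` is isomorphic to a Hilbert space.

Proof outline. Fix a unit vector `x`. The starting file `NullOrbits` reduces the problem to the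
absence of null orbits of near-stabilizers of `x` in `E` and in the dual. `TH578/Rot/Pairs.lean`
shows that the orbits of finitely many vectors under arbitrarily small near-stabilizers of `x` are
`1/2`-dense in the sphere. Around each `e` the orbit map is nearly open with some radius `ρ e`
(Baire category), so all `z` with `(x, z)` close to the orbit of `(x, e)`, within `ρ e`, are
covered by `e`. If no finite set of vectors `e` sufficed, an ultrafilter on the sphere would avoid
all these balls; total boundedness gives vectors `f k` such that the pairs `(x, z)` are within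
`2 ^ (- k)` of the orbit of `(x, f k)` for most `z`; composing isometries, these orbits converge to
the orbit of an actual pair `(x, e)`, a contradiction.
-/

set_option autoImplicit false
set_option linter.unusedVariables false

namespace Pool.Agent.Results.MP_cc72b1_an.PairOrbits

open Pool.H305R3.Rot Pool.TH578.Rot

lemma zero_case (E : Type) [NormedAddCommGroup E] [NormedSpace ℝ E] (h : ¬ ∃ x : E, ‖x‖ = 1) :
    ∃ (H : Type) (instH : NormedAddCommGroup H) (instI : InnerProductSpace ℝ H)
      (instC : CompleteSpace H), Nonempty (E ≃ₗᵢ[ℝ] H) := by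
  have h0 : ∀ v : E, v = 0 := by
    intro v
    by_contra hv
    apply h
    refine ⟨‖v‖⁻¹ • v, ?_⟩
    rw [norm_smul, norm_inv, norm_norm, inv_mul_cancel₀ (norm_ne_zero_iff.2 hv)]
  refine ⟨EuclideanSpace ℝ (Fin 0), inferInstance, inferInstance, inferInstance, ⟨?_⟩⟩
  exact
    { toFun := fun _ => 0
      invFun := fun _ => 0
      map_add' := fun _ _ => by simp
      map_smul' := fun _ _ => by simp
      left_inv := fun v => (h0 v).symm
      right_inv := fun v => Subsingleton.elim _ _
      norm_map' := fun v => by rw [h0 v]; simp }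

theorem result :
    ∀ (E : Type) [NormedAddCommGroup E] [NormedSpace ℝ E] [CompleteSpace E]
      [TopologicalSpace.SeparableSpace E],
      (∀ x y : E, ‖x‖ = 1 → ‖y‖ = 1 → ∃ T : E ≃ₗᵢ[ℝ] E, T x = y) →
      (∀ ε : ℝ, 0 < ε → ∃ P : Finset (E × E), ∀ x z : E, ‖x‖ = 1 → ‖z‖ = 1 →
        ∃ p ∈ P, ∃ T : E ≃ₗᵢ[ℝ] E, ‖T x - p.1‖ ≤ ε ∧ ‖T z - p.2‖ ≤ ε) →
      (∃ (H : Type) (instH : NormedAddCommGroup H) (instI : InnerProductSpace ℝ H)
        (instC : CompleteSpace H), Nonempty (E ≃L[ℝ] H)) ∧
      (SOTAmenable E →
        ∃ (H : Type) (instH : NormedAddCommGroup H) (instI : InnerProductSpace ℝ H)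
          (instC : CompleteSpace H), Nonempty (E ≃ₗᵢ[ℝ] H)) := by
  intro E _ _ _ _ htr hP
  by_cases hx : ∃ x : E, ‖x‖ = 1
  · obtain ⟨x, hx⟩ := hx
    obtain ⟨F, hF1, hF2⟩ := cover htr hP x hx (κ := 1 / 2) (by norm_num)
    have hd := dichotomy htr x hx (not_nullDual F hF2) (not_nullVec F hF1 hF2)
    refine ⟨hd, fun hA => ?_⟩
    obtain ⟨H, i1, i2, i3, ⟨A⟩⟩ := hd
    exact isometric_of_amenable htr hA x hx A
  · obtain ⟨H, i1, i2, i3, ⟨A⟩⟩ := zero_case E hx
    exact ⟨⟨H, i1, i2, i3, ⟨A.toContinuousLinearEquiv⟩⟩, fun _ => ⟨H, i1, i2, i3, ⟨A⟩⟩⟩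

end Pool.Agent.Results.MP_cc72b1_an.PairOrbits
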