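import Pool.Agent.TH578.Quad.Extend

/-!
# Banach-Mazur rotation problem: norms determined by quadratic forms

An infinite-dimensional real Banach space (of any density) with dense orbits of the isometry group
on the unit sphere, whose norm on the unit ball is, uniformly and up to any given precision, a
function of the values of finitely many continuous quadratic forms, is a Hilbert space. For
instance `‖x‖ = Φ (q₁ x, …, q_m x)` with continuous quadratic forms `qᵢ` and continuous `Φ`.

Proof outline (files `Pool/Agent/TH578/Quad/*`).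

1. `Reduce`, `Extend`: there are a symmetric bilinear `B : E × E → ℓ²`, mapping bounded sets into
   compact sets, and a continuous `F : ℓ² → ℝ` with `F (B x x) = ‖x‖ ^ 2` (extension to the closure
   of the range and Tietze).
2. `Cone`: the set `C` of the limits of `B y y` along weakly null ultrafilters is a closed pointed
   convex cone, `F` is positively homogeneous on it, and `F (B x x + c)` is the limit of
   `‖x + y‖ ^ 2` for a weakly null `y` of type `c`.
3. `Fix`, `Pyth`: isometries move the types; the type `g` of minimal norm among those with `F g = 1`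
   (made unique by strict convexity and averaging) is not moved, and `F (B x x + g) = ‖x‖ ^ 2 + 1`.
   Moving `x` to a far away vector of type `g` gives `F (B x x + c) = ‖x‖ ^ 2 + F c` for all types.
4. `Final`: for `y` of type `g` and bounded `z` the limits of `B y z` are differences of types; so
   the defect of the parallelogram law vanishes along `y`, and at any `x` by moving `y` to `x`.
-/

set_option autoImplicit false
set_option linter.unusedVariables false

namespace Pool.Agent.Results.MP_cc72b1_an.QuadraticNorms

open Pool.TH578.Quad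

universe u

theorem result :
    ∀ (E : Type u) [NormedAddCommGroup E] [NormedSpace ℝ E] [CompleteSpace E],
      ¬ FiniteDimensional ℝ E →
      (∀ x y : E, ‖x‖ = 1 → ‖y‖ = 1 → ∀ ε : ℝ, 0 < ε → ∃ T : E ≃ₗᵢ[ℝ] E, ‖T x - y‖ < ε) →
      (∀ ε : ℝ, 0 < ε → ∃ (m : ℕ) (b : Fin m → E →L[ℝ] E →L[ℝ] ℝ) (δ : ℝ), 0 < δ ∧
        ∀ x y : E, ‖x‖ ≤ 1 → ‖y‖ ≤ 1 → (∀ i, |b i x x - b i y y| ≤ δ) → |‖x‖ - ‖y‖| ≤ ε) →
      ∃ (H : Type u) (instH : NormedAddCommGroup H) (instI : InnerProductSpace ℝ H)
        (instC : CompleteSpace H), Nonempty (E ≃ₗᵢ[ℝ] H) := by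
  intro E _ _ _ hinf hat hU
  have key : ∀ x y : E,
      ‖x + y‖ * ‖x + y‖ + ‖x - y‖ * ‖x - y‖ = 2 * (‖x‖ * ‖x‖ + ‖y‖ * ‖y‖) := by
    intro x y
    have h := paral_of_forms (E := E) hat hinf hU x y
    nlinarith [h]
  exact ⟨E, inferInstance, InnerProductSpace.ofNorm ℝ key, inferInstance,
    ⟨LinearIsometryEquiv.refl ℝ E⟩⟩

end Pool.Agent.Results.MP_cc72b1_an.QuadraticNorms
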