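import Pool.Agent.TH596.RO.LC
import Pool.Agent.TH596.RO.FormsB
import Pool.Agent.TH596.RO.LaC

/-!
# Banach-Mazur rotation problem: small normal subgroups and small conjugation orbits

Let `E` be an infinite-dimensional real Banach space and `G` a group of linear isometries of `E`
with dense orbits on the unit sphere. The almost periodic part of the action `a ↦ T a T⁻¹` of `G` on
the bounded operators is an algebra `D`, isomorphic to `ℝ`, `ℂ` or the quaternions, acting by
multiples of isometries. It contains all groups of isometries normalised by `G` with one relatively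
compact orbit, all invariant spaces of operators whose values at one vector span a
finite-dimensional space and, if `E` is separable and `G` transitive, all groups of isometries
normalised by `G` which are locally compact or abelian near `1` in the strong operator topology, and
all isometries which commute with their `G`-conjugates near `1`; a solvable group of isometries
normalised by `G` is contained in `{1, -1}` or meets `D` outside `{1, -1}`. A bounded bilinear form
which is not alternating and has a relatively compact orbit exists on Hilbert spaces only.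

Proof outline (files `Pool/Agent/TH596/RO/*`).

1. `Inj`: a nonzero member of a finite-dimensional invariant space of operators is bounded below.
   Otherwise some member kills any given vector, by compactness and dense orbits; by a maximal rank
   argument (Amitsur) there is a nonzero member of finite rank; the ranges of the members of finite
   rank span a finite-dimensional invariant subspace of `E`, which is impossible.
2. `Spec`, `Frob`, `Core`: for every operator `a` some `(a - s)² + t²` is not bounded below, so the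
   operators with a finite-dimensional orbit span form a quadratic division algebra; Frobenius. The
   norms `‖a x‖` and `‖a‖ ‖x‖` agree by powers and polar decomposition.
3. `Pt`: an invariant space of operators `E → Y` which is finite-dimensional at one vector is
   finite-dimensional, if `Y` has no finite-dimensional invariant subspace (`Y = E` and `Y = E*`).
4. `Orb`, `Ess`: subgroups of countable index of a transitive group have dense orbits; orbits in a
   countable union of subspaces of bounded dimension have a finite-dimensional span for such a group.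
5. `PWd`, `Cpt`: a group of isometries with totally bounded orbits has a compact closure, and the
   vectors with a finite-dimensional orbit span are dense (Peter-Weyl, file `TH264/Bridge/PW`).
6. `Main`: countable orbits at one vector: `‖a y‖` takes countably many values on the unit sphere,
   which is connected.
7. `Forms`, `FormsB`: the dual norm of `b ↦ b (x, x)` on a finite-dimensional invariant space of
   forms is a multiple of `‖x‖²`; then `TH578/Quad` (norms determined by quadratic forms) applies.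
8. Locally compact `N`. `StepA`: by Gleason-Yamabe (starting file `W660/GY/Main3`) there are compact
   subgroups `K` near `1` which contain all small subgroups; the vectors fixed by such a `K` form a
   nonzero `G`-invariant set, hence all of `E`, and by Baire category some `K` is trivial. So `N` has
   no small subgroups and a Gleason norm (`W660/GY/Main2`). `StepB`: the vectors with a Lipschitz
   orbit form a nonzero `G`-invariant set (Gårding; automorphisms are Lipschitz for Gleason norms),
   hence `N` is norm continuous. `StepC`: the generators of small norm of one-parameter subgroups of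
   `N` form a totally bounded `G`-invariant set, so they lie in `D`; then `N ∩ D` is open in `N`
   (Cartan) and `N` is covered by countably many cosets of `N ∩ D`; `LC`: item 4 applies.
9. `LaA` (local form of the starting files `H590R3/Ab*`): an isometry `S` which commutes with
   `T S T⁻¹` for `T` near `1` is `± 1` or `c + s J` with `J² = -1`. `LaB`: then `J` and `T J T⁻¹`
   agree for `T` near `1`. `LaC`: item 4 applies and gives `S ∈ D`; if `N` is abelian near `1`, then
   `N ∩ D` contains all elements near `1` and item 4 applies again; solvable `N`: the last term of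
   the derived series outside `{1, -1}` is abelian near `1`.
-/

set_option autoImplicit false
set_option linter.unusedVariables false

namespace Pool.Agent.Results.MP_cc72b1_an.SmallConjugationOrbits

open Quaternion

theorem result :
    ∀ (E : Type) [NormedAddCommGroup E] [NormedSpace ℝ E] [CompleteSpace E],
      ¬ FiniteDimensional ℝ E →
      -- `cj T a` is the operator `T a T⁻¹`, `mv T b` the form `(x, y) ↦ b (T⁻¹ x, T⁻¹ y)`
      ∀ (cj : (E ≃ₗᵢ[ℝ] E) → (E →L[ℝ] E) → (E →L[ℝ] E)),
      (∀ T a x, cj T a x = T (a (T.symm x))) →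
      ∀ (mv : (E ≃ₗᵢ[ℝ] E) → (E →L[ℝ] E →L[ℝ] ℝ) → (E →L[ℝ] E →L[ℝ] ℝ)),
      (∀ T b x y, mv T b x y = b (T.symm x) (T.symm y)) →
      -- `G` has dense orbits on the unit sphere
      ∀ G : Subgroup (E ≃ₗᵢ[ℝ] E),
      (∀ x y : E, ‖x‖ = 1 → ‖y‖ = 1 → ∀ ε : ℝ, 0 < ε → ∃ T ∈ G, ‖T x - y‖ < ε) →
      (∃ D : Subalgebra ℝ (E →L[ℝ] E),
        (Nonempty (D ≃ₐ[ℝ] ℝ) ∨ Nonempty (D ≃ₐ[ℝ] ℂ) ∨ Nonempty (D ≃ₐ[ℝ] ℍ[ℝ])) ∧
        (∀ a ∈ D, ∀ x, ‖a x‖ = ‖a‖ * ‖x‖) ∧
        (∀ T ∈ G, ∀ a ∈ D, cj T a ∈ D) ∧
        -- `E` separable and `G` transitive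
        (TopologicalSpace.SeparableSpace E →
          (∀ x y : E, ‖x‖ = 1 → ‖y‖ = 1 → ∃ T ∈ G, T x = y) →
          (∀ N : Subgroup (E ≃ₗᵢ[ℝ] E), (∀ T ∈ G, ∀ S ∈ N, T * S * T⁻¹ ∈ N) →
            -- `N` is locally compact for pointwise convergence on `E`
            (@LocallyCompactSpace N
                (TopologicalSpace.induced (fun (S : N) (x : E) => (S : E ≃ₗᵢ[ℝ] E) x)
                  Pi.topologicalSpace) →
              ∀ S ∈ N, (S.toContinuousLinearEquiv : E →L[ℝ] E) ∈ D) ∧
            -- the elements of `N` near `1` commute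
            ((∃ (m : ℕ) (e : Fin m → E) (r : ℝ), 0 < r ∧ ∀ S ∈ N, ∀ T ∈ N,
                (∀ i, ‖S (e i) - e i‖ < r) → (∀ i, ‖T (e i) - e i‖ < r) → S * T = T * S) →
              ∀ S ∈ N, (S.toContinuousLinearEquiv : E →L[ℝ] E) ∈ D) ∧
            -- `N` is solvable and `N ∩ D` is contained in `{1, -1}`
            (Group.IsSolvable N →
              (∀ S ∈ N, (S.toContinuousLinearEquiv : E →L[ℝ] E) ∈ D →
                (∀ x, S x = x) ∨ (∀ x, S x = -x)) →
              ∀ S ∈ N, (∀ x, S x = x) ∨ (∀ x, S x = -x))) ∧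
          -- `S` commutes with `T S T⁻¹` for `T` near `1`
          (∀ S : E ≃ₗᵢ[ℝ] E,
            (∃ (m : ℕ) (e : Fin m → E) (r : ℝ), 0 < r ∧ ∀ T ∈ G, (∀ i, ‖T (e i) - e i‖ < r) →
              (T * S * T⁻¹) * S = S * (T * S * T⁻¹)) →
            (S.toContinuousLinearEquiv : E →L[ℝ] E) ∈ D)) ∧
        -- `H = G`, or `G` is transitive and `H` has countable index in `G`
        (∀ H : Subgroup (E ≃ₗᵢ[ℝ] E),
          (H = G ∨ ((∀ x y : E, ‖x‖ = 1 → ‖y‖ = 1 → ∃ T ∈ G, T x = y) ∧ H ≤ G ∧
            ∃ c : ℕ → E ≃ₗᵢ[ℝ] E, ∀ T ∈ G, ∃ n, (c n)⁻¹ * T ∈ H)) →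
          (∀ N : Subgroup (E ≃ₗᵢ[ℝ] E), (∀ T ∈ H, ∀ S ∈ N, T * S * T⁻¹ ∈ N) →
            ∀ x : E, x ≠ 0 → TotallyBounded {y | ∃ S ∈ N, y = S x} →
            ∀ S ∈ N, (S.toContinuousLinearEquiv : E →L[ℝ] E) ∈ D) ∧
          (∀ a, TotallyBounded {c | ∃ T ∈ H, c = cj T a} → a ∈ D) ∧
          (∀ M : Submodule ℝ (E →L[ℝ] E), (∀ T ∈ H, ∀ a ∈ M, cj T a ∈ M) →
            ∀ x : E, x ≠ 0 → (∃ W : Submodule ℝ E, FiniteDimensional ℝ W ∧ ∀ a ∈ M, a x ∈ W) →
            ∀ a ∈ M, a ∈ D)) ∧
        ((∀ x y : E, ‖x‖ = 1 → ‖y‖ = 1 → ∃ T ∈ G, T x = y) →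
          (∀ (a : E →L[ℝ] E) (d : ℕ), (∃ F : ℕ → Submodule ℝ (E →L[ℝ] E),
              (∀ n, FiniteDimensional ℝ (F n) ∧ Module.finrank ℝ (F n) ≤ d) ∧
              ∀ T ∈ G, ∃ n, cj T a ∈ F n) → a ∈ D) ∧
          (∀ (a : E →L[ℝ] E) (x : E), x ≠ 0 → {y | ∃ T ∈ G, y = cj T a x}.Countable → a ∈ D))) ∧
      (∀ H : Subgroup (E ≃ₗᵢ[ℝ] E),
        (H = G ∨ ((∀ x y : E, ‖x‖ = 1 → ‖y‖ = 1 → ∃ T ∈ G, T x = y) ∧ H ≤ G ∧
          ∃ c : ℕ → E ≃ₗᵢ[ℝ] E, ∀ T ∈ G, ∃ n, (c n)⁻¹ * T ∈ H)) →
        ((∃ b : E →L[ℝ] E →L[ℝ] ℝ, TotallyBounded {c | ∃ T ∈ H, c = mv T b} ∧ ∃ x, b x x ≠ 0) ∨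
         (∃ M : Submodule ℝ (E →L[ℝ] E →L[ℝ] ℝ), (∀ T ∈ H, ∀ b ∈ M, mv T b ∈ M) ∧
            (∃ x : E, x ≠ 0 ∧ ∃ W : Submodule ℝ (E →L[ℝ] ℝ), FiniteDimensional ℝ W ∧
              ∀ b ∈ M, b x ∈ W) ∧
            ∃ b ∈ M, ∃ x, b x x ≠ 0)) →
        ∃ (K : Type) (_ : NormedAddCommGroup K) (_ : InnerProductSpace ℝ K) (_ : CompleteSpace K),
          Nonempty (E ≃ₗᵢ[ℝ] K)) := by
  intro E _ _ _ hE cj hcj mv hmv G hG
  obtain rfl : cj = fun T a => Pool.Agent.TH596.RO.cj T a := by
    funext T a
    ext x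
    exact hcj T a x
  obtain rfl : mv = fun T b => b.bilinearComp (T.symm.toContinuousLinearEquiv : E →L[ℝ] E)
      (T.symm.toContinuousLinearEquiv : E →L[ℝ] E) := by
    funext T b
    ext x y
    exact hmv T b x y
  have hcore := Pool.Agent.TH596.RO.core_DD hE hG
  refine ⟨⟨Pool.Agent.TH596.RO.DD G, hcore.1, hcore.2,
    fun T hT a ha => Pool.Agent.TH596.RO.DD_inv hT ha, ?_, ?_, ?_⟩, ?_⟩
  · intro hsep htr
    refine ⟨fun N hN => ⟨?_, ?_, ?_⟩, ?_⟩
    · intro hlc S hS
      exact @Pool.Agent.TH596.RO.lc_normal E _ _ _ hsep hE G N htr hN hlc S hS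
    · rintro ⟨m, e, r, hr, hab⟩ S hS
      exact Pool.Agent.TH596.RO.loc_ab hE htr hN e hr hab hS
    · intro hs hND
      exact Pool.Agent.TH596.RO.solv hE htr hN hs hND
    · rintro S ⟨m, e, r, hr, hc⟩
      exact Pool.Agent.TH596.RO.loc_single hE htr S e (half_pos hr)
        (fun T hT hTe => hc T hT fun i => (hTe i).trans_lt (half_lt_self hr))
  · intro H hH
    have hSb : Pool.Agent.TH596.RO.Sb G H := hH
    have hat := hSb.at hE hG
    refine ⟨?_, fun a ha => hSb.le hE (Pool.Agent.TH596.RO.ap_op hE hat ha), ?_⟩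
    · intro N hN x hx hb S hS
      exact hSb.le hE (Pool.Agent.TH596.RO.ap_normal hE hat hN hx hb hS)
    · rintro M hM x hx ⟨W, hW, hMW⟩ a ha
      exact hSb.le hE (Pool.Agent.TH596.RO.pt_op hE hat hM hx hW hMW ha)
  · intro htr
    refine ⟨?_, ?_⟩
    · intro a d h
      exact Pool.Agent.TH596.RO.fam_le_DD hE htr (Pool.Agent.TH596.RO.mem_Al_fam.2 ⟨d, h⟩)
    · intro a x hx h
      exact Pool.Agent.TH596.RO.count_op hE htr hx h
  · intro H hH hforms
    have hSb : Pool.Agent.TH596.RO.Sb G H := hH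
    have hat := hSb.at hE hG
    have hpar : ∀ x y : E, ‖x + y‖ ^ 2 + ‖x - y‖ ^ 2 = 2 * ‖x‖ ^ 2 + 2 * ‖y‖ ^ 2 := by
      rcases hforms with ⟨b, hb, x0, hx0⟩ | ⟨M, hM, ⟨x1, hx1, W, hW, hMW⟩, b, hb, x0, hx0⟩
      · exact Pool.Agent.TH596.RO.forms_ap hE hat hb hx0
      · exact Pool.Agent.TH596.RO.forms_par_pt hE hat hM hx1 hW hMW hb hx0
    have key : ∀ x y : E,
        ‖x + y‖ * ‖x + y‖ + ‖x - y‖ * ‖x - y‖ = 2 * (‖x‖ * ‖x‖ + ‖y‖ * ‖y‖) := by
      intro x y
      have h := hpar x y
      nlinarith [h]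
    exact ⟨E, inferInstance, InnerProductSpace.ofNorm ℝ key, inferInstance,
      ⟨LinearIsometryEquiv.refl ℝ E⟩⟩

end Pool.Agent.Results.MP_cc72b1_an.SmallConjugationOrbits
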